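import Pool.Agent.E8helper75.ZL.Conv
import Pool.Agent.W548.Ab.Beta

set_option autoImplicit false

/-!
# Coefficients of the powers of one progression
-/

namespace Pool.Agent.E8helper75.ZL

open Finset AddMonoidAlgebra

variable {G : Type*} [AddCommGroup G]

/-- all coefficients are at most `B` -/
def Sup (B : ℝ) (f : AddMonoidAlgebra ℝ G) : Prop := ∀ x, |f.coeff x| ≤ B

/-- the uniform distribution on `0, v, 2v, …, (L-1)v` -/
noncomputable def pr (L : ℕ) (v : G) : AddMonoidAlgebra ℝ G :=
  ∑ a ∈ range L, AddMonoidAlgebra.single (a • v) ((1 : ℝ) / L)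

theorem coeff_single_mul' (a : G) (r : ℝ) (g : AddMonoidAlgebra ℝ G) (x : G) :
    (AddMonoidAlgebra.single a r * g).coeff x = r * g.coeff (x - a) := by
  rw [coeff_single_mul_apply]
  congr 2
  abel

theorem pr_mul_coeff (L : ℕ) (v : G) (g : AddMonoidAlgebra ℝ G) (x : G) :
    (pr L v * g).coeff x = ∑ a ∈ range L, (1 / (L : ℝ)) * g.coeff (x - a • v) := by
  unfold pr
  rw [sum_mul, coeff_sum, Finset.sum_apply']
  exact sum_congr rfl fun a _ => coeff_single_mul' _ _ _ _

theorem Sup.pr_mul {B : ℝ} (L : ℕ) (hL : 0 < L) (v : G) {g : AddMonoidAlgebra ℝ G} (hg : Sup B g) :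
    Sup B (pr L v * g) := by
  intro x
  rw [pr_mul_coeff]
  refine (abs_sum_le_sum_abs _ _).trans ?_
  have hL' : (0 : ℝ) < L := by exact_mod_cast hL
  calc ∑ a ∈ range L, |1 / (L : ℝ) * g.coeff (x - a • v)| ≤ ∑ a ∈ range L, 1 / (L : ℝ) * B := by
        refine sum_le_sum fun a _ => ?_
        rw [abs_mul, abs_of_pos (by positivity)]
        exact mul_le_mul_of_nonneg_left (hg _) (by positivity)
    _ = B := by
        rw [sum_const, card_range, nsmul_eq_mul]
        field_simp

theorem Sup.pr_pow_mul {B : ℝ} (L : ℕ) (hL : 0 < L) (v : G) {g : AddMonoidAlgebra ℝ G}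
    (hg : Sup B g) (n : ℕ) : Sup B (pr L v ^ n * g) := by
  induction n with
  | zero => rwa [pow_zero, one_mul]
  | succ n ih =>
    rw [pow_succ', mul_assoc]
    exact ih.pr_mul L hL v

theorem Sup.prod_pr_mul {B : ℝ} (L : ℕ) (hL : 0 < L) {X : Type*} (S : Finset X) (v : X → G)
    {g : AddMonoidAlgebra ℝ G} (hg : Sup B g) : Sup B ((∏ i ∈ S, pr L (v i)) * g) := by
  classical
  induction S using Finset.induction_on with
  | empty => rwa [prod_empty, one_mul]
  | insert i S hi ih =>
    rw [prod_insert hi, mul_assoc]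
    exact ih.pr_mul L hL _

theorem T_pr (L : ℕ) (v : G) : T (pr L v) = pr L (-v) := by
  unfold pr
  rw [map_sum]
  refine sum_congr rfl fun a _ => ?_
  have h : T (AddMonoidAlgebra.single (a • v) ((1 : ℝ) / L)) =
      AddMonoidAlgebra.single (-(a • v)) ((1 : ℝ) / L) := by
    unfold T
    exact AddMonoidAlgebra.mapDomain_single
  rw [h, smul_neg]

theorem supp_pr {H : AddSubgroup G} (L : ℕ) {v : G} (hv : v ∈ H) : Supp H (pr L v) := by
  classical
  intro x hx
  unfold pr at hx
  rw [coeff_sum, Finset.sum_apply'] at hx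
  obtain ⟨a, _, ha⟩ := exists_ne_zero_of_sum_ne_zero hx
  rw [coeff_single, Finsupp.single_apply] at ha
  split_ifs at ha with h
  · rw [← h]; exact H.nsmul_mem hv a
  · exact absurd rfl ha

theorem pr_split (M : ℕ) (hM : 0 < M) (v : G) : pr (2 * M) v = pr M v * pr 2 (M • v) := by
  have hM' : (M : ℝ) ≠ 0 := by exact_mod_cast hM.ne'
  unfold pr
  rw [sum_mul, sum_range_succ' (n := 1)] 
  rw [two_mul, sum_range_add, ← sum_add_distrib]
  refine sum_congr rfl fun a _ => ?_
  rw [sum_range_one, mul_add, single_mul_single, single_mul_single]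
  rw [add_comm]
  congr 1
  · congr 1
    · rw [add_smul, zero_add, one_smul, add_comm]
    · push_cast
      field_simp
      norm_num
  · congr 1
    · rw [zero_smul, add_zero]
    · push_cast
      field_simp
      norm_num

theorem pr_two_pow (v : G) (h : ℕ) : pr 2 v ^ h =
    ∑ e ∈ range (h + 1), AddMonoidAlgebra.single (e • v) ((h.choose e : ℝ) / 2 ^ h) := by
  have h1 : pr 2 v = AddMonoidAlgebra.single v ((1 : ℝ) / 2) + AddMonoidAlgebra.single 0 ((1 : ℝ) / 2) := by
    unfold pr
    rw [sum_range_succ, sum_range_one, one_smul, zero_smul, add_comm]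
    push_cast
    rfl
  rw [h1, add_pow]
  refine sum_congr rfl fun e he => ?_
  rw [AddMonoidAlgebra.single_pow, AddMonoidAlgebra.single_pow, single_mul_single]
  rw [AddMonoidAlgebra.natCast_def, single_mul_single, smul_zero, add_zero, add_zero]
  congr 1
  rw [← pow_add, Nat.add_sub_cancel' (by rw [mem_range] at he; omega)]
  rw [one_div, inv_pow]
  field_simp

theorem pr_two_pow_coeff (v : G) (hv : ∀ n : ℤ, n • v = 0 → n = 0) (h : ℕ) (x : G) :
    (∃ e : ℕ, x = e • v ∧ (pr 2 v ^ h).coeff x = (h.choose e : ℝ) / 2 ^ h) ∨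
      (pr 2 v ^ h).coeff x = 0 := by
  classical
  rw [pr_two_pow, coeff_sum, Finset.sum_apply']
  by_cases hx : ∃ e : ℕ, e • v = x
  · obtain ⟨e, rfl⟩ := hx
    left
    refine ⟨e, rfl, ?_⟩
    have hinj : ∀ a : ℕ, a • v = e • v → a = e := by
      intro a ha
      have := hv ((a : ℤ) - e) (by rw [sub_smul, natCast_zsmul, natCast_zsmul, ha, sub_self])
      omega
    by_cases he : e ∈ range (h + 1)
    · rw [sum_eq_single_of_mem e he]
      · rw [coeff_single, Finsupp.single_eq_same]
      · intro a _ hae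
        rw [coeff_single, Finsupp.single_eq_of_ne]
        exact fun h' => hae (hinj a h'.symm)
    · rw [sum_eq_zero]
      · rw [mem_range, not_lt] at he
        rw [Nat.choose_eq_zero_of_lt (by omega)]
        simp
      · intro a ha
        rw [coeff_single, Finsupp.single_eq_of_ne]
        intro h'
        rw [hinj a h'.symm] at ha
        exact he ha
  · right
    refine sum_eq_zero fun a _ => ?_
    rw [coeff_single, Finsupp.single_eq_of_ne]
    exact fun h' => hx ⟨a, h'.symm⟩

open Pool.Agent.W548.Ab in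
theorem sup_pr_pow (M : ℕ) (hM : 0 < M) (v : G) (hv : ∀ n : ℤ, n • v = 0 → n = 0) (h : ℕ)
    (hh : 0 < h) : Sup (1 / M * beta h) (pr (2 * M) v ^ h) := by
  classical
  have hM' : (0 : ℝ) < M := by exact_mod_cast hM
  obtain ⟨k, rfl⟩ : ∃ k, h = k + 1 := ⟨h - 1, by omega⟩
  rw [pr_split M hM, mul_pow, pow_succ (pr M v), mul_assoc]
  refine Sup.pr_pow_mul M hM v ?_ k
  intro x
  rw [pr_mul_coeff, ← mul_sum, abs_mul, abs_of_pos (by positivity)]
  refine mul_le_mul_of_nonneg_left ?_ (by positivity)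
  have hMv : ∀ n : ℤ, n • (M • v) = 0 → n = 0 := by
    intro n hn
    have := hv (n * M) (by rw [mul_smul, natCast_zsmul]; exact hn)
    rcases mul_eq_zero.1 this with h | h
    · exact h
    · omega
  -- at most one term
  have hone : ∀ a ∈ range M, (∃ e : ℕ, x - a • v = e • (M • v)) →
      ∀ a' ∈ range M, (∃ e : ℕ, x - a' • v = e • (M • v)) → a = a' := by
    rintro a ha ⟨e, he⟩ a' ha' ⟨e', he'⟩
    rw [mem_range] at ha ha'
    have h1 : ((a : ℤ) + e * M - (a' + e' * M)) • v = 0 := by
      rw [sub_smul, add_smul, add_smul, mul_smul, mul_smul]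
      simp only [natCast_zsmul]
      rw [← he, ← he']
      abel
    have h2 := hv _ h1
    have h3 : (a : ℤ) % M = (a' : ℤ) % M := by
      have : (a : ℤ) = a' + (e' - e) * M := by linarith
      rw [this, Int.add_mul_emod_self_right]
    rw [Int.emod_eq_of_lt (by omega) (by omega), Int.emod_eq_of_lt (by omega) (by omega)] at h3
    omega
  have hbd : ∀ y : G, |(pr 2 (M • v) ^ (k + 1)).coeff y| ≤ beta (k + 1) := by
    intro y
    rcases pr_two_pow_coeff (M • v) hMv (k + 1) y with ⟨e, _, he⟩ | h0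
    · rw [he, abs_of_nonneg (by positivity)]
      unfold beta mid
      gcongr
      exact_mod_cast Nat.choose_le_middle e (k + 1)
    · rw [h0, abs_zero]
      exact beta_nonneg _
  by_cases hex : ∃ a ∈ range M, ∃ e : ℕ, x - a • v = e • (M • v)
  · obtain ⟨a, ha, hae⟩ := hex
    rw [sum_eq_single_of_mem a ha]
    · exact hbd _
    · intro a' ha' hne
      rcases pr_two_pow_coeff (M • v) hMv (k + 1) (x - a' • v) with ⟨e, he1, _⟩ | h0
      · exact absurd (hone a' ha' ⟨e, he1⟩ a ha hae) hne
      · exact h0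
  · rw [sum_eq_zero]
    · rw [abs_zero]
      exact beta_nonneg _
    · intro a ha
      rcases pr_two_pow_coeff (M • v) hMv (k + 1) (x - a • v) with ⟨e, he1, _⟩ | h0
      · exact absurd ⟨a, ha, e, he1⟩ hex
      · exact h0

open Pool.Agent.W548.Ab in
/-- the factor of one element of a block -/
theorem one_factor (M : ℕ) (hM : 0 < M) (v : G) (hv : ∀ n : ℤ, n • v = 0 → n = 0) (h : ℕ)
    (hh : 0 < h) : |((pr (2 * M) v * T (pr (2 * M) v)) ^ h).coeff 0| ≤ 1 / M * beta h := by
  rw [mul_pow, mul_comm, T_pr]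
  exact (sup_pr_pow M hM v hv h hh).pr_pow_mul (2 * M) (by omega) (-v) h 0

end Pool.Agent.E8helper75.ZL
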