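import Mathlib

set_option autoImplicit false

/-!
# Convolutions on an abelian group and repeated Cauchy-Schwarz
-/

namespace Pool.Agent.E8helper75.ZL

open Finset AddMonoidAlgebra

variable {G : Type*} [AddCommGroup G]

/-- the reflection `x ↦ -x` -/
noncomputable def T : AddMonoidAlgebra ℝ G →+* AddMonoidAlgebra ℝ G :=
  AddMonoidAlgebra.mapDomainRingHom ℝ (negAddMonoidHom : G →+ G)

theorem T_coeff (f : AddMonoidAlgebra ℝ G) (x : G) : (T f).coeff x = f.coeff (-x) := by
  have h : (T f).coeff = Finsupp.mapDomain (fun x : G => -x) f.coeff := rfl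
  rw [h]
  have h2 : x = (fun x : G => -x) (-x) := (neg_neg x).symm
  conv_lhs => rw [h2]
  exact Finsupp.mapDomain_apply neg_injective f.coeff (-x)

theorem T_T (f : AddMonoidAlgebra ℝ G) : T (T f) = f := by
  ext x
  rw [T_coeff, T_coeff, neg_neg]

theorem coeff_mul' (f g : AddMonoidAlgebra ℝ G) (x : G) :
    (f * g).coeff x = ∑ a ∈ f.coeff.support, f.coeff a * g.coeff (x - a) := by
  rw [AddMonoidAlgebra.coeff_mul_apply_left, Finsupp.sum]
  refine sum_congr rfl fun a _ => ?_
  rw [show -a + x = x - a by abel]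

theorem mul_T_zero (f : AddMonoidAlgebra ℝ G) :
    (f * T f).coeff 0 = ∑ a ∈ f.coeff.support, f.coeff a ^ 2 := by
  rw [coeff_mul']
  refine sum_congr rfl fun a _ => ?_
  rw [T_coeff, zero_sub, neg_neg, sq]

theorem mul_T_nonneg (f : AddMonoidAlgebra ℝ G) : 0 ≤ (f * T f).coeff 0 := by
  rw [mul_T_zero]
  positivity

theorem cs (f g : AddMonoidAlgebra ℝ G) (x : G) :
    ((f * g).coeff x) ^ 2 ≤ (f * T f).coeff 0 * (g * T g).coeff 0 := by
  classical
  rw [mul_T_zero, mul_T_zero, coeff_mul']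
  refine (sum_mul_sq_le_sq_mul_sq _ _ _).trans ?_
  refine mul_le_mul_of_nonneg_left ?_ (by positivity)
  have h1 : ∑ a ∈ f.coeff.support, g.coeff (x - a) ^ 2 =
      ∑ b ∈ f.coeff.support.image (fun a => x - a), g.coeff b ^ 2 := by
    rw [sum_image]
    intro a _ b _ hab
    exact sub_right_injective hab
  rw [h1]
  rw [← sum_filter_add_sum_filter_not (f.coeff.support.image (fun a => x - a))
    (fun b => b ∈ g.coeff.support)]
  have h2 : ∑ b ∈ (f.coeff.support.image (fun a => x - a)).filter (fun b => ¬ b ∈ g.coeff.support),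
      g.coeff b ^ 2 = 0 := by
    refine sum_eq_zero fun b hb => ?_
    rw [mem_filter, Finsupp.notMem_support_iff] at hb
    rw [hb.2]
    norm_num
  rw [h2, add_zero]
  refine sum_le_sum_of_subset_of_nonneg ?_ (fun _ _ _ => sq_nonneg _)
  intro b hb
  exact (mem_filter.1 hb).2

/-- **Hölder's inequality for convolutions.** -/
theorem holder (m : ℕ) : ∀ (f : ℕ → AddMonoidAlgebra ℝ G) (x : G),
    |(∏ j ∈ range (2 ^ (m + 1)), f j).coeff x| ^ (2 ^ (m + 1)) ≤
      ∏ j ∈ range (2 ^ (m + 1)), ((f j * T (f j)) ^ (2 ^ m)).coeff 0 := by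
  induction m with
  | zero =>
    intro f x
    have h := cs (f 0) (f 1) x
    simpa [prod_range_succ, sq_abs] using h
  | succ m ih =>
    intro f x
    have h2 : 2 ^ (m + 1 + 1) = 2 ^ (m + 1) + 2 ^ (m + 1) := by ring
    have h2' : 2 ^ (m + 1 + 1) = 2 * 2 ^ (m + 1) := by ring
    have key : ∀ f : ℕ → AddMonoidAlgebra ℝ G,
        ((∏ j ∈ range (2 ^ (m + 1)), f j) * T (∏ j ∈ range (2 ^ (m + 1)), f j)).coeff 0
          ^ (2 ^ (m + 1)) ≤ ∏ j ∈ range (2 ^ (m + 1)), ((f j * T (f j)) ^ (2 ^ (m + 1))).coeff 0 := by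
      intro f
      have h := ih (fun j => f j * T (f j)) 0
      rw [abs_of_nonneg] at h
      · rw [map_prod, ← prod_mul_distrib]
        refine h.trans (le_of_eq ?_)
        refine prod_congr rfl fun j _ => ?_
        rw [map_mul, T_T]
        congr 2
        rw [pow_succ 2 m, mul_comm (2 ^ m) 2, pow_mul]
        congr 1
        ring
      · have h3 := mul_T_nonneg (∏ j ∈ range (2 ^ (m + 1)), f j)
        rwa [map_prod, ← prod_mul_distrib] at h3
    have hA := key f
    have hB := key (fun j => f (2 ^ (m + 1) + j))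
    rw [h2, prod_range_add, prod_range_add]
    set F := ∏ j ∈ range (2 ^ (m + 1)), f j
    set H := ∏ j ∈ range (2 ^ (m + 1)), f (2 ^ (m + 1) + j)
    have hcs := cs F H x
    rw [← h2, h2', pow_mul, sq_abs]
    calc ((F * H).coeff x ^ 2) ^ (2 ^ (m + 1))
        ≤ ((F * T F).coeff 0 * (H * T H).coeff 0) ^ (2 ^ (m + 1)) :=
          pow_le_pow_left₀ (sq_nonneg _) hcs _
      _ = (F * T F).coeff 0 ^ (2 ^ (m + 1)) * (H * T H).coeff 0 ^ (2 ^ (m + 1)) := mul_pow _ _ _
      _ ≤ _ := mul_le_mul hA hB (pow_nonneg (mul_T_nonneg _) _)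
          ((pow_nonneg (mul_T_nonneg _) _).trans hA)

/-- the functions supported on a subgroup -/
def Supp (H : AddSubgroup G) (f : AddMonoidAlgebra ℝ G) : Prop := ∀ x, f.coeff x ≠ 0 → x ∈ H

theorem Supp.mul {H : AddSubgroup G} {f g : AddMonoidAlgebra ℝ G} (hf : Supp H f) (hg : Supp H g) :
    Supp H (f * g) := by
  intro x hx
  rw [coeff_mul'] at hx
  obtain ⟨a, _, ha⟩ := exists_ne_zero_of_sum_ne_zero hx
  have h1 := hf a (left_ne_zero_of_mul ha)
  have h2 := hg _ (right_ne_zero_of_mul ha)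
  simpa using H.add_mem h2 h1

theorem Supp.one {H : AddSubgroup G} : Supp H (1 : AddMonoidAlgebra ℝ G) := by
  classical
  intro x hx
  rw [AddMonoidAlgebra.one_def, AddMonoidAlgebra.coeff_single, Finsupp.single_apply] at hx
  split_ifs at hx with h
  · rw [← h]; exact H.zero_mem
  · exact absurd rfl hx

theorem Supp.pow {H : AddSubgroup G} {f : AddMonoidAlgebra ℝ G} (hf : Supp H f) (n : ℕ) :
    Supp H (f ^ n) := by
  induction n with
  | zero => rw [pow_zero]; exact Supp.one
  | succ n ih => rw [pow_succ]; exact ih.mul hf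

theorem Supp.T {H : AddSubgroup G} {f : AddMonoidAlgebra ℝ G} (hf : Supp H f) : Supp H (T f) := by
  intro x hx
  rw [T_coeff] at hx
  simpa using H.neg_mem (hf _ hx)

theorem Supp.mono {H K : AddSubgroup G} (h : H ≤ K) {f : AddMonoidAlgebra ℝ G} (hf : Supp H f) :
    Supp K f := fun x hx => h (hf x hx)

theorem coeff_mul_disjoint {H K : AddSubgroup G} (h : ∀ x, x ∈ H → x ∈ K → x = 0)
    {f g : AddMonoidAlgebra ℝ G} (hf : Supp H f) (hg : Supp K g) :
    (f * g).coeff 0 = f.coeff 0 * g.coeff 0 := by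
  classical
  rw [coeff_mul']
  rw [sum_eq_single 0]
  · rw [sub_zero]
  · intro a ha ha0
    by_contra hne
    have h1 := hf a (left_ne_zero_of_mul hne)
    have h2 := hg _ (right_ne_zero_of_mul hne)
    rw [zero_sub] at h2
    exact ha0 (h a h1 (by simpa using K.neg_mem h2))
  · intro h0
    rw [Finsupp.notMem_support_iff] at h0
    rw [h0, zero_mul]

end Pool.Agent.E8helper75.ZL
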