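import Pool.Agent.E8helper75.ZL.Blk

set_option autoImplicit false

/-!
# Disjoint independent sets and the concentration inequality
-/

namespace Pool.Agent.E8helper75.ZL

open Finset AddMonoidAlgebra Module

variable {V : Type*} [AddCommGroup V] [Module ℚ V] {ι : Type*}

open Pool.Agent.W548.Ab

theorem zsmul_ne {v : V} (hv : v ≠ 0) (n : ℤ) (h : n • v = 0) : n = 0 := by
  have h1 : ((n : ℚ)) • v = 0 := by rwa [Int.cast_smul_eq_zsmul]
  rcases smul_eq_zero.1 h1 with h2 | h2
  · exact_mod_cast h2
  · exact absurd h2 hv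

theorem span_disj {v : ι → V} {S : Set ι} {i : ι} (hi : i ∉ S)
    (h : LinearIndepOn ℚ v (insert i S)) (x : V) (h1 : x ∈ Submodule.span ℚ (v '' S))
    (h2 : x ∈ Submodule.span ℚ {v i}) : x = 0 := by
  obtain ⟨c, rfl⟩ := Submodule.mem_span_singleton.1 h2
  by_cases hc : c = 0
  · rw [hc, zero_smul]
  · exfalso
    have h3 : v i ∈ Submodule.span ℚ (v '' S) := by
      have := Submodule.smul_mem _ c⁻¹ h1
      rwa [smul_smul, inv_mul_cancel₀ hc, one_smul] at this
    have h4 := (linearIndepOn_insert hi).1 h
    exact h4.2 h3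

/-- the product over one block -/
theorem block (M : ℕ) (hM : 0 < M) (v : ι → V) (h : ℕ) (hh : 0 < h) (S : Finset ι)
    (hS : LinearIndepOn ℚ v (S : Set ι)) :
    Supp (Submodule.span ℚ (v '' (S : Set ι))).toAddSubgroup
      (∏ i ∈ S, (pr (2 * M) (v i) * T (pr (2 * M) (v i))) ^ h) ∧
    |(∏ i ∈ S, (pr (2 * M) (v i) * T (pr (2 * M) (v i))) ^ h).coeff 0| ≤
      (1 / M * beta h) ^ S.card := by
  classical
  have hM' : (0 : ℝ) < M := by exact_mod_cast hM
  induction S using Finset.induction_on with
  | empty =>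
    rw [prod_empty]
    refine ⟨Supp.one, ?_⟩
    simp
  | insert i S hi ih =>
    rw [coe_insert] at hS
    have hiS : i ∉ (S : Set ι) := by simpa using hi
    obtain ⟨ih1, ih2⟩ := ih (hS.mono (Set.subset_insert _ _))
    rw [prod_insert hi]
    set F := ∏ i ∈ S, (pr (2 * M) (v i) * T (pr (2 * M) (v i))) ^ h with hF
    set g := (pr (2 * M) (v i) * T (pr (2 * M) (v i))) ^ h with hg
    have hg1 : Supp (Submodule.span ℚ {v i}).toAddSubgroup g := by
      have h1 : Supp (Submodule.span ℚ {v i}).toAddSubgroup (pr (2 * M) (v i)) :=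
        supp_pr _ (Submodule.mem_span_singleton_self _)
      exact (h1.mul h1.T).pow h
    constructor
    · rw [coe_insert, Set.image_insert_eq]
      have e1 : Supp (Submodule.span ℚ (insert (v i) (v '' (S : Set ι)))).toAddSubgroup g := by
        refine hg1.mono ?_
        intro x hx
        exact Submodule.span_mono (by simp) hx
      have e2 : Supp (Submodule.span ℚ (insert (v i) (v '' (S : Set ι)))).toAddSubgroup F := by
        refine ih1.mono ?_
        intro x hx
        exact Submodule.span_mono (Set.subset_insert _ _) hx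
      exact e1.mul e2
    · rw [mul_comm, coeff_mul_disjoint (span_disj hiS hS) ih1 hg1, abs_mul, card_insert_of_notMem hi,
        pow_succ]
      refine mul_le_mul ih2 ?_ (abs_nonneg _) (by have := beta_nonneg h; positivity)
      refine one_factor M hM (v i) ?_ h hh
      intro n hn
      refine zsmul_ne ?_ n hn
      exact hS.ne_zero (Set.mem_insert _ _)

/-- **Concentration of sums with many disjoint independent blocks.** -/
theorem sup_blocks (M : ℕ) (hM : 0 < M) (v : ι → V) (m D : ℕ) (B : ℕ → Finset ι)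
    (hB : ∀ j < 2 ^ (m + 1), (B j).card = D ∧ LinearIndepOn ℚ v (B j : Set ι)) :
    Sup ((1 / M * beta (2 ^ m)) ^ D)
      (∏ j ∈ range (2 ^ (m + 1)), ∏ i ∈ B j, pr (2 * M) (v i)) := by
  classical
  intro x
  have h := holder m (fun j => ∏ i ∈ B j, pr (2 * M) (v i)) x
  have hM' : (0 : ℝ) < M := by exact_mod_cast hM
  have hb := beta_nonneg (2 ^ m)
  have h1 : ∏ j ∈ range (2 ^ (m + 1)), (((∏ i ∈ B j, pr (2 * M) (v i)) *
      T (∏ i ∈ B j, pr (2 * M) (v i))) ^ (2 ^ m)).coeff 0 ≤
      ∏ j ∈ range (2 ^ (m + 1)), (1 / M * beta (2 ^ m)) ^ D := by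
    refine (le_abs_self _).trans ?_
    rw [abs_prod]
    refine prod_le_prod (fun _ _ => abs_nonneg _) fun j hj => ?_
    rw [mem_range] at hj
    obtain ⟨hc, hl⟩ := hB j hj
    have h2 := (block M hM v (2 ^ m) (by positivity) (B j) hl).2
    rw [hc] at h2
    rw [map_prod, ← prod_mul_distrib, ← prod_pow]
    exact h2
  rw [prod_const, card_range] at h1
  exact le_of_pow_le_pow_left₀ (by positivity) (by positivity) (h.trans h1)

omit [Module ℚ V] in
/-- the coefficients count -/
theorem coeff_prod [Fintype ι] [DecidableEq ι] [DecidableEq V] (L : ℕ) (v : ι → V) (x : V) :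
    (∏ i, pr L (v i)).coeff x =
      (((Fintype.piFinset (fun _ : ι => range L)).filter (fun a => ∑ i, a i • v i = x)).card : ℝ)
        * (1 / L) ^ Fintype.card ι := by
  unfold pr
  rw [Finset.prod_univ_sum, coeff_sum, Finset.sum_apply']
  have h1 : ∀ a : ι → ℕ, (∏ i, AddMonoidAlgebra.single (a i • v i) ((1 : ℝ) / L)) =
      AddMonoidAlgebra.single (∑ i, a i • v i) ((1 / (L : ℝ)) ^ Fintype.card ι) := by
    intro a
    have : ∀ S : Finset ι, (∏ i ∈ S, AddMonoidAlgebra.single (a i • v i) ((1 : ℝ) / L)) =
        AddMonoidAlgebra.single (∑ i ∈ S, a i • v i) ((1 / (L : ℝ)) ^ S.card) := by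
      intro S
      induction S using Finset.induction_on with
      | empty => rw [prod_empty, sum_empty, card_empty, pow_zero]; rfl
      | insert i S hi ih =>
        rw [prod_insert hi, ih, single_mul_single, sum_insert hi, card_insert_of_notMem hi, pow_succ']
    rw [this univ, card_univ]
  simp only [h1, coeff_single, Finsupp.single_apply]
  rw [← sum_filter, sum_const, nsmul_eq_mul]

open Classical in
/-- greedy construction of one independent set -/
theorem exists_block [Fintype ι] (v : ι → V) (K D : ℕ)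
    (hK : ∀ U : Submodule ℚ V, FiniteDimensional ℚ U → finrank ℚ U < D →
      K ≤ (univ.filter (fun i => v i ∉ U)).card) (J : Finset ι) (hJ : J.card < K) (t : ℕ) (ht : t ≤ D) :
    ∃ B : Finset ι, Disjoint B J ∧ B.card = t ∧ LinearIndepOn ℚ v (B : Set ι) := by
  classical
  induction t with
  | zero =>
    refine ⟨∅, by simp, by simp, ?_⟩
    rw [coe_empty]
    exact linearIndepOn_empty ℚ v
  | succ t ih =>
    obtain ⟨B, hB1, hB2, hB3⟩ := ih (by omega)
    have hfin : FiniteDimensional ℚ (Submodule.span ℚ (v '' (B : Set ι))) :=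
      FiniteDimensional.span_of_finite ℚ (B.finite_toSet.image v)
    have hr : finrank ℚ (Submodule.span ℚ (v '' (B : Set ι))) < D := by
      have h1 : finrank ℚ (Submodule.span ℚ ((B.image v : Finset V) : Set V)) ≤ (B.image v).card :=
        finrank_span_finset_le_card _
      have h2 : (B.image v).card ≤ B.card := card_image_le
      rw [coe_image] at h1
      omega
    have h1 := hK _ hfin hr
    obtain ⟨i, hi, hiJ⟩ := Finset.exists_mem_notMem_of_card_lt_card (lt_of_lt_of_le hJ h1)
    have hi2 := (mem_filter.1 hi).2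
    have hiB : i ∉ B := fun h => hi2 (Submodule.subset_span ⟨i, h, rfl⟩)
    refine ⟨insert i B, ?_, ?_, ?_⟩
    · rw [disjoint_insert_left]
      exact ⟨hiJ, hB1⟩
    · rw [card_insert_of_notMem hiB, hB2]
    · rw [coe_insert]
      exact (linearIndepOn_insert (by simpa using hiB)).2 ⟨hB3, hi2⟩

open Classical in
theorem exists_blocks [Fintype ι] (v : ι → V) (K D : ℕ) (hD : 0 < D)
    (hK : ∀ U : Submodule ℚ V, FiniteDimensional ℚ U → finrank ℚ U < D →
      K ≤ (univ.filter (fun i => v i ∉ U)).card) (j : ℕ) (hj : j * D ≤ K) :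
    ∃ B : ℕ → Finset ι, (∀ t < j, (B t).card = D ∧ LinearIndepOn ℚ v (B t : Set ι)) ∧
      ((range j : Set ℕ).PairwiseDisjoint B) := by
  classical
  induction j with
  | zero => exact ⟨fun _ => ∅, fun t ht => absurd ht (by omega), by simp⟩
  | succ j ih =>
    obtain ⟨B, hB1, hB2⟩ := ih (by nlinarith)
    have hJ : ((range j).biUnion B).card < K := by
      have h1 : ((range j).biUnion B).card ≤ j * D := by
        refine (card_biUnion_le_card_mul _ _ D fun t ht => ?_).trans (by rw [card_range])
        rw [(hB1 t (mem_range.1 ht)).1]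
      nlinarith
    obtain ⟨C, hC1, hC2, hC3⟩ := exists_block v K D hK _ hJ D le_rfl
    refine ⟨fun t => if t < j then B t else C, ?_, ?_⟩
    · intro t ht
      dsimp only
      by_cases h : t < j
      · rw [if_pos h]; exact hB1 t h
      · rw [if_neg h]; exact ⟨hC2, hC3⟩
    · intro s hs t ht hst
      rw [coe_range, Set.mem_Iio] at hs ht
      have hdis : ∀ s < j, Disjoint (B s) C := by
        intro s hs
        rw [disjoint_comm]
        exact disjoint_of_subset_right (subset_biUnion_of_mem B (mem_range.2 hs)) hC1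
      simp only [Function.onFun]
      by_cases h1 : s < j
      · by_cases h2 : t < j
        · rw [if_pos h1, if_pos h2]
          exact hB2 (by simpa using h1) (by simpa using h2) hst
        · rw [if_pos h1, if_neg h2]
          exact hdis s h1
      · by_cases h2 : t < j
        · rw [if_neg h1, if_pos h2]
          exact (hdis t h2).symm
        · exact absurd (by omega) hst

open Classical in
/-- **The concentration inequality.** -/
theorem concentration [Fintype ι] [DecidableEq ι] (M : ℕ) (hM : 0 < M) (v : ι → V)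
    (m D : ℕ) (hD : 0 < D)
    (hK : ∀ U : Submodule ℚ V, FiniteDimensional ℚ U → finrank ℚ U < D →
      2 ^ (m + 1) * D ≤ (univ.filter (fun i => v i ∉ U)).card) (x : V) :
    (((Fintype.piFinset (fun _ : ι => range (2 * M))).filter
      (fun a => ∑ i, a i • v i = x)).card : ℝ) ≤
      (1 / M * beta (2 ^ m)) ^ D * (2 * M) ^ Fintype.card ι := by
  obtain ⟨B, hB1, hB2⟩ := exists_blocks v _ D hD hK (2 ^ (m + 1)) le_rfl
  have h1 := sup_blocks M hM v m D B hB1
  rw [← prod_biUnion hB2] at h1
  have h2 := h1.prod_pr_mul (2 * M) (by omega) (univ \ (range (2 ^ (m + 1))).biUnion B) v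
  rw [prod_sdiff (subset_univ _)] at h2
  have h3 := (le_abs_self _).trans (h2 x)
  rw [coeff_prod] at h3
  have hM' : (0 : ℝ) < M := by exact_mod_cast hM
  push_cast at h3
  rw [one_div, inv_pow, ← div_eq_mul_inv, div_le_iff₀ (by positivity)] at h3
  exact h3

end Pool.Agent.E8helper75.ZL
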