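import Pool.Agent.E8helper75.ZL.Ind
import Pool.Agent.E8helper75.ZP.Out

set_option autoImplicit false

/-!
# Random integer combinations of odd zeta values
-/

namespace Pool.Agent.E8helper75.ZL

open Module

open Classical in
theorem outsideK : ∃ n₀ : ℕ, ∀ n ≥ n₀, ∀ n₁ : ℕ, n₁ ^ 2 ≤ n → ∀ K : ℕ, 1 ≤ K → K ^ 5 ≤ n →
    ∀ V : Submodule ℚ ℂ, FiniteDimensional ℚ V → (finrank ℚ V : ℝ) ≤ Real.log n / 1000 →
    K ≤ ((Finset.univ : Finset (Finset.Ico n₁ n)).filter
      (fun k : Finset.Ico n₁ n => riemannZeta (2 * ((k : ℕ) : ℂ) + 3) ∉ V)).card := by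
  have hlim : Filter.Tendsto (fun n : ℕ => Real.log (n : ℝ)) Filter.atTop Filter.atTop :=
    Real.tendsto_log_atTop.comp tendsto_natCast_atTop_atTop
  obtain ⟨n₀, hn₀⟩ := Filter.eventually_atTop.1 (hlim.eventually_ge_atTop 1000)
  refine ⟨n₀ + 1, fun n hn n₁ hn₁ K hK1 hK5 V hV hVr => ?_⟩
  have hL := hn₀ n (by omega)
  set L := Real.log (n : ℝ) with hLdef
  have hn1 : 1 ≤ n := by omega
  have hnR : (1 : ℝ) ≤ n := by exact_mod_cast hn1
  have hn0 : (0 : ℝ) < n := by linarith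
  have hexp : Real.exp L = n := Real.exp_log hn0
  let f : ℝ →ₗ[ℚ] ℂ := (Algebra.linearMap ℝ ℂ).restrictScalars ℚ
  have hf : Function.Injective f := Complex.ofReal_injective
  set W : Submodule ℚ ℝ := V.comap f with hW
  let g : W →ₗ[ℚ] V := f.restrict (fun x hx => hx)
  have hg : Function.Injective g := by
    intro x y hxy
    apply Subtype.ext
    apply hf
    exact congrArg Subtype.val hxy
  have hWf : FiniteDimensional ℚ W := FiniteDimensional.of_injective g hg
  have hWr : finrank ℚ W ≤ finrank ℚ V := LinearMap.finrank_le_finrank_of_injective hg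
  set D := finrank ℚ V with hD
  have hKR : (1 : ℝ) ≤ K := by exact_mod_cast hK1
  have hK0 : (0 : ℝ) ≤ K := by linarith
  have hs : (2 : ℝ) ^ (132 * (D + 1)) * (((2 * n₁ + 2 : ℕ) : ℝ) + 1) ^ 2 * (K : ℝ) ^ 3 *
      Real.log (K + 1) ≤ ((2 * n + 1 : ℕ) : ℝ) ^ 2 := by
    have e1 : (2 : ℝ) ^ (132 * (D + 1)) ≤ Real.exp (92 + 0.1 * L) := by
      have h1 : (2 : ℝ) = Real.exp (Real.log 2) := (Real.exp_log (by norm_num)).symm
      rw [h1, ← Real.exp_nat_mul]
      apply Real.exp_le_exp.2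
      push_cast
      have h2 := Real.log_two_lt_d9
      have h3 : (0 : ℝ) ≤ 132 * ((D : ℝ) + 1) := by positivity
      calc 132 * ((D : ℝ) + 1) * Real.log 2 ≤ 132 * ((D : ℝ) + 1) * 0.6931471808 := by gcongr
        _ ≤ 132 * (L / 1000 + 1) * 0.6931471808 := by gcongr
        _ ≤ _ := by linarith
    have e2 : (((2 * n₁ + 2 : ℕ) : ℝ) + 1) ^ 2 ≤ 25 * Real.exp L := by
      rw [hexp]
      have h1 : (n₁ : ℝ) ^ 2 ≤ n := by exact_mod_cast hn₁
      push_cast
      nlinarith [sq_nonneg ((n₁ : ℝ) - 1)]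
    have e3 : Real.log (K + 1) ≤ K := by
      have := Real.log_le_sub_one_of_pos (show (0 : ℝ) < K + 1 by positivity)
      linarith
    have e4 : (0 : ℝ) ≤ Real.log (K + 1) := Real.log_nonneg (by linarith)
    have e5 : (4 : ℝ) * Real.exp (2 * L) ≤ ((2 * n + 1 : ℕ) : ℝ) ^ 2 := by
      rw [two_mul, Real.exp_add, hexp]
      push_cast
      nlinarith
    have e6 : (K : ℝ) ^ 4 ≤ Real.exp (0.8 * L) := by
      have h5 : (K : ℝ) ^ 5 ≤ Real.exp L := by rw [hexp]; exact_mod_cast hK5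
      have h6 : (K : ℝ) ≤ Real.exp (0.2 * L) := by
        have h7 : Real.exp L = Real.exp (0.2 * L) ^ 5 := by
          rw [← Real.exp_nat_mul]; congr 1; push_cast; ring
        rw [h7] at h5
        exact le_of_pow_le_pow_left₀ (by norm_num) (Real.exp_pos _).le h5
      calc (K : ℝ) ^ 4 ≤ Real.exp (0.2 * L) ^ 4 := by gcongr
        _ = Real.exp (0.8 * L) := by rw [← Real.exp_nat_mul]; congr 1; push_cast; ring
    have e8 : (25 : ℝ) ≤ 4 * Real.exp 2 := by
      have := Real.exp_one_gt_d9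
      rw [show (2 : ℝ) = 1 + 1 by norm_num, Real.exp_add]
      nlinarith
    calc (2 : ℝ) ^ (132 * (D + 1)) * (((2 * n₁ + 2 : ℕ) : ℝ) + 1) ^ 2 * (K : ℝ) ^ 3 *
        Real.log (K + 1) ≤ Real.exp (92 + 0.1 * L) * (25 * Real.exp L) * (K : ℝ) ^ 3 * K := by
          gcongr
      _ = Real.exp (92 + 0.1 * L) * Real.exp L * (K : ℝ) ^ 4 * 25 := by ring
      _ ≤ Real.exp (92 + 0.1 * L) * Real.exp L * Real.exp (0.8 * L) * (4 * Real.exp 2) := by gcongr
      _ = 4 * Real.exp (94 + 1.9 * L) := by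
          have e7 : Real.exp (94 + 1.9 * L) =
              Real.exp (92 + 0.1 * L) * Real.exp L * Real.exp (0.8 * L) * Real.exp 2 := by
            rw [← Real.exp_add, ← Real.exp_add, ← Real.exp_add]
            congr 1
            ring
          rw [e7]
          ring
      _ ≤ 4 * Real.exp (2 * L) := by
          gcongr
          linarith
      _ ≤ _ := e5
  have h := Pool.Agent.Y926.TW.window_space (b := 2 * n₁ + 2) (K := K) (D := D) (s := 2 * n + 1)
    hK1 hs W hWf hWr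
  refine h.trans ?_
  set A : Set ℕ := {j : ℕ | 2 * n₁ + 2 < j ∧ j ≤ 2 * n + 1 ∧ Odd j ∧ ∀ r : ℚ,
      (∑' n : ℕ, 1 / ((n : ℝ) + 1) ^ j) - r ∉ W} with hA
  set S := (Finset.univ : Finset (Finset.Ico n₁ n)).filter
      (fun k : Finset.Ico n₁ n => riemannZeta (2 * ((k : ℕ) : ℂ) + 3) ∉ V) with hS
  have hsub : A ⊆ ((S.image (fun k : Finset.Ico n₁ n => 2 * (k : ℕ) + 3) : Finset ℕ) : Set ℕ) := by
    rintro j ⟨h1, h2, ⟨t, ht⟩, h4⟩
    have hk : t - 1 ∈ Finset.Ico n₁ n := by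
      rw [Finset.mem_Ico]
      omega
    rw [Finset.mem_coe, Finset.mem_image]
    refine ⟨⟨t - 1, hk⟩, ?_, by simp only []; omega⟩
    rw [hS, Finset.mem_filter]
    refine ⟨Finset.mem_univ _, fun hmem => ?_⟩
    apply h4 0
    have hj : j = 2 * (t - 1) + 3 := by omega
    simp only [] at hmem
    rw [Pool.Agent.E8helper75.ZP.zeta_val, ← hj] at hmem
    rw [Rat.cast_zero, sub_zero]
    exact hmem
  calc A.ncard ≤ ((S.image (fun k : Finset.Ico n₁ n => 2 * (k : ℕ) + 3) : Finset ℕ) : Set ℕ).ncard :=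
        Set.ncard_le_ncard hsub (Finset.finite_toSet _)
    _ = (S.image (fun k : Finset.Ico n₁ n => 2 * (k : ℕ) + 3)).card := Set.ncard_coe_finset _
    _ ≤ S.card := Finset.card_image_le

/-- a linear map with a given kernel -/
theorem exists_proj (W : Submodule ℚ ℂ) : ∃ p : ℂ →ₗ[ℚ] ℂ, (∀ x, p x = 0 ↔ x ∈ W) ∧
    ∀ x, x - p x ∈ W := by
  obtain ⟨W', hW'⟩ := Submodule.exists_isCompl W
  refine ⟨W'.subtype ∘ₗ (Submodule.projectionOnto W' W hW'.symm), fun x => ?_, fun x => ?_⟩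
  · rw [LinearMap.comp_apply, Submodule.subtype_apply, Submodule.coe_eq_zero,
      Submodule.projectionOnto_apply_eq_zero_iff]
  · have h1 := Submodule.projectionOnto_apply_eq_zero_iff hW'.symm
      (x := x - (Submodule.projectionOnto W' W hW'.symm x : ℂ))
    rw [LinearMap.comp_apply, Submodule.subtype_apply, ← h1, map_sub,
      Submodule.projectionOnto_apply_left, sub_self]

open Classical in
/-- the count for given parameters -/
theorem count_params (n n₁ N D m M : ℕ) (hD : 0 < D) (hM : 0 < M) (r : ℕ → ℚ) (hr : ∀ k, r k ≠ 0)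
    (hout : ∀ V : Submodule ℚ ℂ, FiniteDimensional ℚ V → finrank ℚ V < N + D →
      2 ^ (m + 1) * D ≤ ((Finset.univ : Finset (Finset.Ico n₁ n)).filter
      (fun k : Finset.Ico n₁ n => riemannZeta (2 * ((k : ℕ) : ℂ) + 3) ∉ V)).card)
    (W : Submodule ℚ ℂ) (hW : FiniteDimensional ℚ W) (hWN : finrank ℚ W ≤ N) (y : ℂ) :
    (((Fintype.piFinset (fun _ : Finset.Ico n₁ n => Finset.range (2 * M))).filter
      (fun a => y + ∑ k : Finset.Ico n₁ n, (a k : ℂ) * (r k : ℂ) * riemannZeta (2 * ((k : ℕ) : ℂ) + 3) ∈ W)).card : ℝ) ≤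
      (1 / M * Pool.Agent.W548.Ab.beta (2 ^ m)) ^ D * (2 * M) ^ (n - n₁) := by
  obtain ⟨p, hp1, hp2⟩ := exists_proj W
  set v : Finset.Ico n₁ n → ℂ := fun k => r k • p (riemannZeta (2 * ((k : ℕ) : ℂ) + 3)) with hv
  have h := concentration M hM v m D hD (fun U hU hUD => by
    have hfin : FiniteDimensional ℚ (W ⊔ U : Submodule ℚ ℂ) := Submodule.finiteDimensional_sup W U
    have hrk : finrank ℚ (W ⊔ U : Submodule ℚ ℂ) < N + D := by
      have := Submodule.finrank_add_le_finrank_add_finrank W U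
      omega
    refine (hout _ hfin hrk).trans (Finset.card_le_card ?_)
    intro k hk
    rw [Finset.mem_filter] at hk ⊢
    refine ⟨hk.1, fun hmem => hk.2 ?_⟩
    have h1 : p (riemannZeta (2 * ((k : ℕ) : ℂ) + 3)) ∈ U := by
      have := U.smul_mem (r k)⁻¹ hmem
      rwa [hv, smul_smul, inv_mul_cancel₀ (hr k), one_smul] at this
    have h2 := Submodule.add_mem_sup (hp2 (riemannZeta (2 * ((k : ℕ) : ℂ) + 3))) h1
    rwa [sub_add_cancel] at h2) (- p y)
  rw [Fintype.card_coe, Nat.card_Ico] at h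
  refine le_trans ?_ h
  refine Nat.cast_le.2 (Finset.card_le_card ?_)
  intro a ha
  rw [Finset.mem_filter, Fintype.mem_piFinset] at ha ⊢
  refine ⟨ha.1, ?_⟩
  have h1 := (hp1 _).2 ha.2
  rw [map_add, map_sum] at h1
  have h2 : ∑ k : Finset.Ico n₁ n, p ((a k : ℂ) * (r k : ℂ) * riemannZeta (2 * ((k : ℕ) : ℂ) + 3)) =
      ∑ k, a k • v k := by
    refine Finset.sum_congr rfl fun k _ => ?_
    have h3 : (a k : ℂ) * (r k : ℂ) * riemannZeta (2 * ((k : ℕ) : ℂ) + 3) =
        a k • (r k • riemannZeta (2 * ((k : ℕ) : ℂ) + 3)) := by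
      rw [nsmul_eq_mul, Rat.smul_def, mul_assoc]
    rw [h3, map_nsmul, map_smul]
  rw [h2] at h1
  exact eq_neg_of_add_eq_zero_right h1

open Classical in
/-- **Random integer combinations of odd zeta values.** -/
theorem combos : ∃ n₀ : ℕ, ∀ n ≥ n₀, ∀ n₁ : ℕ, n₁ ^ 2 ≤ n → ∀ M : ℕ, 0 < M → ∀ r : ℕ → ℚ,
    (∀ k, r k ≠ 0) → ∀ W : Submodule ℚ ℂ, FiniteDimensional ℚ W →
    (finrank ℚ W : ℝ) ≤ Real.log n / 2500 → ∀ y : ℂ,
    (((Fintype.piFinset (fun _ : Finset.Ico n₁ n => Finset.range (2 * M))).filter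
      (fun a => y + ∑ k : Finset.Ico n₁ n, (a k : ℂ) * (r k : ℂ) * riemannZeta (2 * ((k : ℕ) : ℂ) + 3) ∈ W)).card : ℝ) ≤
      Real.exp (- (Real.log n * Real.log (M * n)) / 30000) * (2 * M) ^ (n - n₁) := by
  obtain ⟨n₀, hn₀⟩ := outsideK
  have hlim : Filter.Tendsto (fun n : ℕ => Real.log (n : ℝ)) Filter.atTop Filter.atTop :=
    Real.tendsto_log_atTop.comp tendsto_natCast_atTop_atTop
  obtain ⟨n₂, hn₂⟩ := Filter.eventually_atTop.1 (hlim.eventually_ge_atTop 10000)
  refine ⟨max n₀ (n₂ + 1), fun n hn n₁ hn₁ M hM r hr W hW hWN y => ?_⟩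
  have hn0 : n₀ ≤ n := le_trans (le_max_left _ _) hn
  have hn2 : n₂ + 1 ≤ n := le_trans (le_max_right _ _) hn
  have hL := hn₂ n (by omega)
  set L := Real.log (n : ℝ) with hLdef
  have hnR : (0 : ℝ) < n := by exact_mod_cast (by omega : 0 < n)
  have hexp : Real.exp L = n := Real.exp_log hnR
  -- the parameters
  set D := ⌈L / 2500⌉₊ with hDdef
  have hD1 : L / 2500 ≤ D := Nat.le_ceil _
  have hD2 : (D : ℝ) < L / 2500 + 1 := Nat.ceil_lt_add_one (by positivity)
  have hD0 : 0 < D := by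
    rw [hDdef, Nat.ceil_pos]
    linarith
  have hDR : (0 : ℝ) < D := by exact_mod_cast hD0
  set q := ⌊Real.exp (L / 5) / D⌋₊ with hqdef
  have hq1 : (q : ℝ) ≤ Real.exp (L / 5) / D := Nat.floor_le (by positivity)
  have hq2 : Real.exp (L / 5) / D < q + 1 := Nat.lt_floor_add_one _
  have hbig : 4 * Real.exp (L / 6) + 1 ≤ Real.exp (L / 5) / D := by
    rw [le_div_iff₀ hDR]
    have h1 : Real.exp (L / 5) = Real.exp (L / 6) * Real.exp (L / 30) := by
      rw [← Real.exp_add]; congr 1; ring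
    have h2 : L / 30 + 1 ≤ Real.exp (L / 30) := Real.add_one_le_exp _
    have h3 : 1 ≤ Real.exp (L / 6) := Real.one_le_exp (by positivity)
    rw [h1]
    calc (4 * Real.exp (L / 6) + 1) * D ≤ (4 * Real.exp (L / 6) + Real.exp (L / 6)) * (L / 2500 + 1) := by
          gcongr
      _ = Real.exp (L / 6) * (5 * (L / 2500 + 1)) := by ring
      _ ≤ Real.exp (L / 6) * Real.exp (L / 30) := by
          gcongr
          linarith
  have hq4 : 4 * Real.exp (L / 6) ≤ q := by linarith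
  have hq5 : 4 ≤ q := by
    have h3 : 1 ≤ Real.exp (L / 6) := Real.one_le_exp (by positivity)
    have : (4 : ℝ) ≤ q := by linarith
    exact_mod_cast this
  set m := Nat.log 2 q - 1 with hmdef
  have hlog : 2 ≤ Nat.log 2 q := by
    have : Nat.log 2 4 ≤ Nat.log 2 q := Nat.log_mono_right hq5
    have h4 : Nat.log 2 4 = 2 := by norm_num [Nat.log]
    omega
  have hm1 : 2 ^ (m + 1) ≤ q := by
    rw [hmdef, Nat.sub_add_cancel (by omega)]
    exact Nat.pow_log_le_self 2 (by omega)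
  have hm2 : q < 2 ^ (m + 2) := by
    have := Nat.lt_pow_succ_log_self (b := 2) (by norm_num) q
    rw [hmdef, show Nat.log 2 q - 1 + 2 = (Nat.log 2 q).succ by omega]
    exact this
  have hh : Real.exp (L / 6) ≤ ((2 ^ m : ℕ) : ℝ) := by
    have h1 : (q : ℝ) ≤ ((2 ^ (m + 2) : ℕ) : ℝ) := by exact_mod_cast hm2.le
    push_cast at h1 ⊢
    rw [pow_add] at h1
    linarith
  have hK5 : (2 ^ (m + 1) * D) ^ 5 ≤ n := by
    have h1 : ((2 ^ (m + 1) * D : ℕ) : ℝ) ≤ Real.exp (L / 5) := by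
      push_cast
      have h2 : ((2 ^ (m + 1) : ℕ) : ℝ) ≤ q := by exact_mod_cast hm1
      push_cast at h2
      calc (2 : ℝ) ^ (m + 1) * D ≤ Real.exp (L / 5) / D * D := by
            gcongr
            exact h2.trans hq1
        _ = Real.exp (L / 5) := by field_simp
    have h2 : ((2 ^ (m + 1) * D : ℕ) : ℝ) ^ 5 ≤ (n : ℝ) := by
      calc ((2 ^ (m + 1) * D : ℕ) : ℝ) ^ 5 ≤ Real.exp (L / 5) ^ 5 := by gcongr
        _ = (n : ℝ) := by
          rw [← Real.exp_nat_mul, ← hexp]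
          congr 1
          push_cast
          ring
    exact_mod_cast h2
  set N := ⌊L / 2500⌋₊ with hNdef
  have hN1 : (N : ℝ) ≤ L / 2500 := Nat.floor_le (by positivity)
  have hWN' : finrank ℚ W ≤ N := Nat.le_floor hWN
  have hcount := count_params n n₁ N D m M hD0 hM r hr (fun V hV hVr => by
    refine hn₀ n hn0 n₁ hn₁ _ (by
      have : 0 < 2 ^ (m + 1) * D := by positivity
      omega) hK5 V hV ?_
    have h1 : ((finrank ℚ V : ℕ) : ℝ) + 1 ≤ N + D := by exact_mod_cast hVr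
    linarith) W hW hWN' y
  refine hcount.trans ?_
  refine mul_le_mul_of_nonneg_right ?_ (by positivity)
  have hM' : (1 : ℝ) ≤ M := by exact_mod_cast hM
  have hMlog : 0 ≤ Real.log M := Real.log_nonneg hM'
  have hMn : Real.log (M * n) = Real.log M + L := Real.log_mul (by positivity) (by positivity)
  -- the bound for one dimension
  have hone : 1 / M * Pool.Agent.W548.Ab.beta (2 ^ m) ≤ Real.exp (-(Real.log (M * n)) / 12) := by
    have hb : Pool.Agent.W548.Ab.beta (2 ^ m) ≤ Real.exp (- L / 12) := by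
      have h1 := Pool.Agent.W548.Ab.beta_sq_le (2 ^ m) (by positivity)
      have h2 : Pool.Agent.W548.Ab.beta (2 ^ m) ^ 2 ≤ Real.exp (- L / 12) ^ 2 := by
        refine h1.trans ?_
        rw [← Real.exp_nat_mul]
        have h3 : ((2 : ℕ) : ℝ) * (-L / 12) = - (L / 6) := by push_cast; ring
        rw [h3, Real.exp_neg, div_le_iff₀ (by positivity)]
        have h4 : (Real.exp (L / 6))⁻¹ * (3 * ((2 ^ m : ℕ) : ℝ)) ≥
            (Real.exp (L / 6))⁻¹ * (3 * Real.exp (L / 6)) := by gcongr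
        have h5 : (Real.exp (L / 6))⁻¹ * (3 * Real.exp (L / 6)) = 3 := by
          field_simp
        linarith
      exact le_of_sq_le_sq h2 (Real.exp_pos _).le
    have h6 : (1 : ℝ) / M ≤ Real.exp (- Real.log M / 12) := by
      rw [one_div, ← Real.exp_log (show (0 : ℝ) < M by positivity), ← Real.exp_neg, Real.log_exp]
      apply Real.exp_le_exp.2
      linarith
    calc 1 / M * Pool.Agent.W548.Ab.beta (2 ^ m) ≤ Real.exp (- Real.log M / 12) * Real.exp (- L / 12) :=
          mul_le_mul h6 hb (Pool.Agent.W548.Ab.beta_nonneg _) (Real.exp_pos _).le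
      _ = _ := by
          rw [← Real.exp_add, hMn]
          congr 1
          ring
  calc (1 / M * Pool.Agent.W548.Ab.beta (2 ^ m)) ^ D ≤ Real.exp (-(Real.log (M * n)) / 12) ^ D := by
        have := Pool.Agent.W548.Ab.beta_nonneg (2 ^ m)
        gcongr
    _ = Real.exp (- (D * Real.log (M * n)) / 12) := by
        rw [← Real.exp_nat_mul]
        congr 1
        ring
    _ ≤ _ := by
        apply Real.exp_le_exp.2
        have h7 : 0 ≤ Real.log (M * n) := by rw [hMn]; linarith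
        nlinarith

end Pool.Agent.E8helper75.ZL
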